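import Mathlib
import Pool.Agent.V1130.TwistedPGL
import Pool.Agent.V1130.GLCont
import Pool.Agent.V1130.LaurentTop
import Pool.Agent.V1130.LaurentChar
import Pool.Agent.V1130.LaurentChi

/-!
Problem MP_3e0647_al, Q1: the answer is negative.
There is an abstract group acting sharply 3-transitively by homeomorphisms on a compact Hausdorff
space such that for no topology on the group all the orbit maps on triples are homeomorphisms.
-/

namespace Pool.Agent.Results.MP_3e0647_al.NoTopology

open Filter Topology OnePoint LaurentSeries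

/-- ordered triples of pairwise distinct points of `M`, as a subspace of `M × M × M` -/
def Triples (M : Type) : Type := {p : M × M × M // p.1 ≠ p.2.1 ∧ p.1 ≠ p.2.2 ∧ p.2.1 ≠ p.2.2}

instance (M : Type) [TopologicalSpace M] : TopologicalSpace (Triples M) :=
  inferInstanceAs (TopologicalSpace
    {p : M × M × M // p.1 ≠ p.2.1 ∧ p.1 ≠ p.2.2 ∧ p.2.1 ≠ p.2.2})

/-- the coordinatewise action on triples -/
def act {M G : Type} [Group G] [MulAction G M] (g : G) (t : Triples M) : Triples M :=
  ⟨(g • t.1.1, g • t.1.2.1, g • t.1.2.2),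
    fun h => t.2.1 (MulAction.injective g h),
    fun h => t.2.2.1 (MulAction.injective g h),
    fun h => t.2.2.2 (MulAction.injective g h)⟩

/-- the field with four elements -/
abbrev F4 := GaloisField 2 2

noncomputable instance : Fintype F4 := Fintype.ofFinite _

theorem card_F4 : Fintype.card F4 = 4 := by
  rw [← Nat.card_eq_fintype_card, GaloisField.card 2 2 (by norm_num)]
  norm_num

theorem pow_four (x : F4) : x ^ 4 = x := by
  have := FiniteField.pow_card x
  rwa [card_F4] at this

/-- the Frobenius of `F4` -/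
noncomputable def fr : F4 ≃+* F4 := frobeniusEquiv F4 2

theorem fr_apply (x : F4) : fr x = x ^ 2 := by
  rw [fr, frobeniusEquiv_apply, frobenius_def]

theorem fr_fr (x : F4) : fr (fr x) = x := by
  rw [fr_apply, fr_apply, ← pow_mul]
  exact pow_four x

theorem exists_ne : ∃ ω : F4, fr ω ≠ ω := by
  classical
  by_contra h
  push Not at h
  have h1 : (Finset.univ : Finset F4) ⊆ {0, 1} := by
    intro x _
    have h2 := h x
    rw [fr_apply, sq] at h2
    rw [Finset.mem_insert, Finset.mem_singleton]
    by_cases hx : x = 0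
    · exact Or.inl hx
    · exact Or.inr (mul_left_cancel₀ hx (by rw [h2, mul_one]))
  have h2 := Finset.card_le_card h1
  rw [Finset.card_univ, card_F4] at h2
  have h3 : ({0, 1} : Finset F4).card ≤ 2 := Finset.card_le_two
  omega

noncomputable instance : DecidableEq (LaurentSeries F4) := Classical.decEq _

theorem C_all (A : Matrix.GeneralLinearGroup (Fin 2) (LaurentSeries F4)) : V1130.GLCont.C A :=
  V1130.GLCont.C_all V1130.LaurentTop.tendsto_inv_zero V1130.LaurentTop.tendsto_inv_cocompact A

theorem act_act {M G : Type} [Group G] [MulAction G M] (g h : G) (t : Triples M) :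
    act g (act h t) = act (g * h) t := by
  apply Subtype.ext
  change (g • h • t.1.1, g • h • t.1.2.1, g • h • t.1.2.2) = (_, _, _)
  simp only [mul_smul]

theorem act_one {M G : Type} [Group G] [MulAction G M] (t : Triples M) :
    act (1 : G) t = t := by
  apply Subtype.ext
  change ((1 : G) • t.1.1, (1 : G) • t.1.2.1, (1 : G) • t.1.2.2) = t.1
  simp only [one_smul]

section

variable {K : Type} [Field K] [DecidableEq K] (σ : K ≃+* K) (χ : Kˣ →* ℤˣ)
  (hσ : ∀ x, σ (σ x) = x) (hχ : ∀ u, χ (Units.map σ.toRingHom.toMonoidHom u) = χ u)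

/-- the triple `(∞, 0, k)` -/
def tr (k : K) (hk : k ≠ 0) : Triples (OnePoint K) :=
  ⟨(∞, ((0 : K) : OnePoint K), (k : OnePoint K)), OnePoint.infty_ne_coe _,
    OnePoint.infty_ne_coe _, fun h => hk (OnePoint.coe_injective h).symm⟩

theorem exists_act (t : Triples (OnePoint K)) :
    ∃ g : V1130.TwistedPGL.G σ χ hσ hχ, act g (tr (1 : K) one_ne_zero) = t := by
  obtain ⟨g, h1, h2, h3⟩ := V1130.TwistedPGL.exists_G σ χ hσ hχ t.1.1 t.1.2.1 t.1.2.2
    t.2.1 t.2.2.1 t.2.2.2
  refine ⟨g, Subtype.ext ?_⟩
  exact Prod.ext h1 (Prod.ext h2 h3)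

theorem eq_one_of_act (g : V1130.TwistedPGL.G σ χ hσ hχ)
    (h : act g (tr (1 : K) one_ne_zero) = tr (1 : K) one_ne_zero) : g = 1 := by
  have h' := congrArg Subtype.val h
  exact V1130.TwistedPGL.three_stab σ χ hσ hχ g (congrArg Prod.fst h')
    (congrArg (fun p => p.2.1) h') (congrArg (fun p => p.2.2) h')

theorem sharply (s t : Triples (OnePoint K)) :
    ∃! g : V1130.TwistedPGL.G σ χ hσ hχ, act g s = t := by
  obtain ⟨a, rfl⟩ := exists_act σ χ hσ hχ s
  obtain ⟨b, rfl⟩ := exists_act σ χ hσ hχ t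
  refine ⟨b * a⁻¹, ?_, ?_⟩
  · change act (b * a⁻¹) (act a _) = act b _
    rw [act_act, mul_assoc, inv_mul_cancel, mul_one]
  · intro g hg
    change act g (act a _) = act b _ at hg
    rw [act_act] at hg
    have h1 : b⁻¹ * (g * a) = 1 := by
      apply eq_one_of_act σ χ hσ hχ
      rw [← act_act, hg, act_act, inv_mul_cancel, act_one]
    rw [inv_mul_eq_one.1 h1, mul_assoc, mul_inv_cancel, mul_one]

end

theorem continuous_map_tw (σ : LaurentSeries F4 ≃+* LaurentSeries F4)
    (hσ : ∀ x, σ (σ x) = x) (hc : Continuous σ) (ε : ℤˣ) :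
    Continuous (OnePoint.map (V1130.TwistedPGL.tw σ ε)) := by
  rcases Int.units_eq_one_or ε with rfl | rfl
  · have : OnePoint.map (V1130.TwistedPGL.tw σ 1) = id := by
      ext x
      cases x <;> simp
    rw [this]
    exact continuous_id
  · let e : LaurentSeries F4 ≃ₜ LaurentSeries F4 :=
      { toFun := σ, invFun := σ, left_inv := hσ, right_inv := hσ,
        continuous_toFun := hc, continuous_invFun := hc }
    have : OnePoint.map (V1130.TwistedPGL.tw σ (-1)) = e.onePointCongr := by
      ext x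
      cases x <;> rfl
    rw [this]
    exact e.onePointCongr.continuous

theorem isHomeo (σ : LaurentSeries F4 ≃+* LaurentSeries F4) (χ : (LaurentSeries F4)ˣ →* ℤˣ)
    (hσ : ∀ x, σ (σ x) = x) (hχ : ∀ u, χ (Units.map σ.toRingHom.toMonoidHom u) = χ u)
    (hc : Continuous σ) (g : V1130.TwistedPGL.G σ χ hσ hχ) :
    IsHomeomorph fun x : OnePoint (LaurentSeries F4) => g • x := by
  have h : ∀ g : V1130.TwistedPGL.G σ χ hσ hχ,
      Continuous fun x : OnePoint (LaurentSeries F4) => g • x := by
    rintro ⟨π, A, hπ⟩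
    have : (fun x : OnePoint (LaurentSeries F4) =>
        (⟨π, A, hπ⟩ : V1130.TwistedPGL.G σ χ hσ hχ) • x) =
        (fun x => A • x) ∘ OnePoint.map (V1130.TwistedPGL.tw σ
          (χ (Matrix.GeneralLinearGroup.det A))) := by
      ext x
      exact hπ x
    rw [this]
    exact (C_all A).comp (continuous_map_tw σ hσ hc _)
  exact (Homeomorph.mk (MulAction.toPerm g) (h g) (h g⁻¹)).isHomeomorph

theorem result :
    ∃ (M : Type) (_ : TopologicalSpace M) (_ : CompactSpace M) (_ : T2Space M)
      (G : Type) (_ : Group G) (_ : MulAction G M),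
      (∀ g : G, IsHomeomorph fun x : M => g • x) ∧
      (∀ s t : Triples M, ∃! g : G, act g s = t) ∧
      ¬ ∃ _ : TopologicalSpace G, ∀ t : Triples M, IsHomeomorph fun g : G => act g t := by
  obtain ⟨ω, hω⟩ := exists_ne
  set σ : LaurentSeries F4 ≃+* LaurentSeries F4 := V1130.LaurentChar.sig fr fr_fr with hσdef
  have hσ : ∀ x, σ (σ x) = x := V1130.LaurentChar.sig_sig fr fr_fr
  have hc : Continuous σ := V1130.LaurentChar.continuous_sig fr fr_fr
  obtain ⟨χ, hχ, hχ1⟩ := V1130.LaurentChi.exists_char fr fr_fr hω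
  refine ⟨OnePoint (LaurentSeries F4), inferInstance, inferInstance, inferInstance,
    V1130.TwistedPGL.G σ χ hσ hχ, inferInstance, inferInstance, isHomeo σ χ hσ hχ hc,
    sharply σ χ hσ hχ, ?_⟩
  rintro ⟨_, hT⟩
  choose g hg1 hg2 using fun i : ℕ => V1130.TwistedPGL.exists_stab σ χ hσ hχ
    (Units.mk0 (V1130.LaurentChar.tu ω i) (V1130.LaurentChi.tu_ne_zero ω i))
  have hg3 : ∀ i (k : LaurentSeries F4), g i • (k : OnePoint (LaurentSeries F4)) =
      ((V1130.LaurentChar.tu ω i * σ k : LaurentSeries F4) : OnePoint (LaurentSeries F4)) := by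
    intro i k
    rw [hg2, hχ1, V1130.TwistedPGL.tw_neg_one]
    rfl
  have hu := V1130.LaurentChi.tendsto_tu ω
  have hlim : ∀ k : LaurentSeries F4, Tendsto (fun i => g i • (k : OnePoint (LaurentSeries F4)))
      atTop (𝓝 ((σ k : LaurentSeries F4) : OnePoint (LaurentSeries F4))) := by
    intro k
    simp only [hg3]
    have h1 : Tendsto (fun i => V1130.LaurentChar.tu ω i * σ k) atTop (𝓝 (1 * σ k)) :=
      hu.mul tendsto_const_nhds
    rw [one_mul] at h1
    exact (OnePoint.continuous_coe.tendsto _).comp h1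
  -- convergence of the orbit at `(∞, 0, 1)`
  have h1 : Tendsto (fun i => act (g i) (tr (1 : LaurentSeries F4) one_ne_zero)) atTop
      (𝓝 (act (1 : V1130.TwistedPGL.G σ χ hσ hχ) (tr (1 : LaurentSeries F4) one_ne_zero))) := by
    refine (Topology.IsInducing.subtypeVal (t := {p : OnePoint (LaurentSeries F4) ×
      OnePoint (LaurentSeries F4) × OnePoint (LaurentSeries F4) |
        p.1 ≠ p.2.1 ∧ p.1 ≠ p.2.2 ∧ p.2.1 ≠ p.2.2})).tendsto_nhds_iff.2 ?_
    refine Tendsto.prodMk_nhds ?_ (Tendsto.prodMk_nhds ?_ ?_)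
    · change Tendsto (fun i => g i • (∞ : OnePoint (LaurentSeries F4))) atTop
        (𝓝 ((1 : V1130.TwistedPGL.G σ χ hσ hχ) • (∞ : OnePoint (LaurentSeries F4))))
      simp only [hg1, one_smul]
      exact tendsto_const_nhds
    · change Tendsto (fun i => g i • ((0 : LaurentSeries F4) : OnePoint (LaurentSeries F4))) atTop
        (𝓝 ((1 : V1130.TwistedPGL.G σ χ hσ hχ) •
          ((0 : LaurentSeries F4) : OnePoint (LaurentSeries F4))))
      simp only [hg3, one_smul, map_zero, mul_zero]
      exact tendsto_const_nhds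
    · change Tendsto (fun i => g i • ((1 : LaurentSeries F4) : OnePoint (LaurentSeries F4))) atTop
        (𝓝 ((1 : V1130.TwistedPGL.G σ χ hσ hχ) •
          ((1 : LaurentSeries F4) : OnePoint (LaurentSeries F4))))
      have := hlim 1
      rw [map_one] at this
      rwa [one_smul]
  have h2 : Tendsto g atTop (𝓝 1) :=
    ((hT (tr (1 : LaurentSeries F4) one_ne_zero)).isInducing.tendsto_nhds_iff).2 h1
  set k : LaurentSeries F4 := HahnSeries.single 0 ω with hk
  have hkσ : σ k ≠ k := by
    intro h
    have h' := congrArg (fun f => HahnSeries.coeff f 0) h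
    change (V1130.LaurentChar.sig fr fr_fr k).coeff 0 = k.coeff 0 at h'
    rw [V1130.LaurentChar.sig_coeff, hk, HahnSeries.coeff_single_same] at h'
    exact hω h'
  have hk0 : k ≠ 0 := by
    intro h
    rw [h, map_zero] at hkσ
    exact hkσ rfl
  have h3 := ((hT (tr k hk0)).continuous.tendsto 1).comp h2
  have h4 : Continuous fun t : Triples (OnePoint (LaurentSeries F4)) => t.1.2.2 :=
    continuous_snd.comp (continuous_snd.comp continuous_subtype_val)
  have h5 := (h4.tendsto _).comp h3
  have h6 : Tendsto (fun i => g i • (k : OnePoint (LaurentSeries F4))) atTop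
      (𝓝 ((1 : V1130.TwistedPGL.G σ χ hσ hχ) • (k : OnePoint (LaurentSeries F4)))) := h5
  rw [one_smul] at h6
  exact hkσ (OnePoint.coe_injective (tendsto_nhds_unique (hlim k) h6))

end Pool.Agent.Results.MP_3e0647_al.NoTopology
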